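import Mathlib
import Pool.Agent.Q124.CM.Iter

/-!
# Comatching number two does not bound the Leray number

For every `d` there is a finite family of subsets of a finite set with comatching number at most
two whose nerve has nonzero reduced rational homology in degree `d`.

The family: start with two disjoint singletons (the nerve is the zero-sphere). Given an incidence
`I` between vertices `V` and points `X`, take as new vertices all maps `y : V → Bool`, as new
points all pairs `(x, F)` with `x : V → Bool` and `F ∈ X`, and let `y` be incident with `(x, F)`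
when all `v` with `y v ≠ x v` are incident with `F`. (The nerve becomes the real moment-angle
complex of the old one.) This does not create comatchings of size three, and it raises the degree
of the homology by one.
-/

set_option autoImplicit false

namespace Pool.Agent.Results.MP_587f0f_co.NoAbsoluteConstant

/-- A finite family `M` of subsets of `X` is a comatching: for every `f ∈ M` there is a point that
is not in `f` and lies in all other members of `M`. -/
def IsComatching {X : Type} (M : Finset (Set X)) : Prop :=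
  ∀ f ∈ M, ∃ a : X, a ∉ f ∧ ∀ g ∈ M, g ≠ f → a ∈ g

/-- The comatching number of a family: the supremum of the sizes of its comatchings. -/
noncomputable def comatchingNumber {X : Type} (𝓕 : Set (Set X)) : ℕ∞ :=
  ⨆ (M : Finset (Set X)) (_ : (M : Set (Set X)) ⊆ 𝓕 ∧ IsComatching M), (M.card : ℕ∞)

/-- An abstract simplicial complex with vertices in `V`, given by its nonempty faces. -/
structure Complex (V : Type) where
  /-- the nonempty faces -/
  faces : Set (Finset V)
  /-- they are nonempty -/
  nonempty_of_mem : ∀ S ∈ faces, S.Nonempty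
  /-- nonempty subsets of faces are faces -/
  down_closed : ∀ S ∈ faces, ∀ T ⊆ S, T.Nonempty → T ∈ faces

/-- The nerve of a family of sets: its faces are the nonempty finite subfamilies with nonempty
common intersection. -/
def nerve {X : Type} (𝓕 : Set (Set X)) : Complex (Set X) where
  faces := {S | S.Nonempty ∧ (S : Set (Set X)) ⊆ 𝓕 ∧ ∃ x, ∀ f ∈ S, x ∈ f}
  nonempty_of_mem := fun _ h => h.1
  down_closed := by
    rintro S ⟨-, h2, x, h3⟩ T hT hne
    exact ⟨hne, fun f hf => h2 (hT hf), x, fun f hf => h3 f (hT hf)⟩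

/-- The induced subcomplex on a set of vertices. -/
def Complex.induced {V : Type} (K : Complex V) (W : Set V) : Complex V where
  faces := {S | S ∈ K.faces ∧ (S : Set V) ⊆ W}
  nonempty_of_mem := fun _ h => K.nonempty_of_mem _ h.1
  down_closed := fun S h T hT hne =>
    ⟨K.down_closed S h.1 T hT hne, fun v hv => h.2 (hT hv)⟩

/-- The oriented simplex `v₀ ∧ v₁ ∧ ... ∧ v_k` of a list of vertices, in the exterior algebra of
the rational vector space with basis `V`. -/
noncomputable def simplex {V : Type} (l : List V) : ExteriorAlgebra ℚ (V →₀ ℚ) :=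
  (l.map fun v => ExteriorAlgebra.ι ℚ (Finsupp.single v 1)).prod

/-- The oriented simplicial `k`-chains of `K` with rational coefficients: the span of the
`v₀ ∧ ... ∧ v_k` whose vertices lie in a common face of `K`. -/
noncomputable def chains {V : Type} (K : Complex V) (k : ℕ) :
    Submodule ℚ (ExteriorAlgebra ℚ (V →₀ ℚ)) :=
  Submodule.span ℚ {z | ∃ l : List V, l.length = k + 1 ∧ (∃ S ∈ K.faces, ∀ v ∈ l, v ∈ S) ∧
    z = simplex l}

/-- The boundary operator: contraction with the sum of the coordinates. It sends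
`v₀ ∧ ... ∧ v_k` to the alternating sum of the `v₀ ∧ .. (omit v_i) .. ∧ v_k`, see
`boundary_simplex`. -/
noncomputable def boundary (V : Type) :
    ExteriorAlgebra ℚ (V →₀ ℚ) →ₗ[ℚ] ExteriorAlgebra ℚ (V →₀ ℚ) :=
  CliffordAlgebra.contractLeft (Finsupp.linearCombination ℚ fun _ : V => (1 : ℚ))

/-- The reduced rational homology of `K` in degree `k` vanishes: every `k`-cycle (for `k = 0`: of
augmentation zero) is a boundary. -/
def ReducedHomologyVanishes {V : Type} (K : Complex V) (k : ℕ) : Prop :=
  ∀ z ∈ chains K k, boundary V z = 0 → ∃ b ∈ chains K (k + 1), boundary V b = z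

/-- `K` is `d`-Leray: the reduced rational homology of all induced subcomplexes vanishes in all
degrees `i ≥ d`. -/
def IsLeray {V : Type} (K : Complex V) (d : ℕ) : Prop :=
  ∀ (W : Set V) (i : ℕ), d ≤ i → ReducedHomologyVanishes (K.induced W) i

/-- The boundary of an oriented simplex is the usual alternating sum. -/
theorem boundary_simplex {V : Type} (l : List V) :
    boundary V (simplex l) = ∑ i ∈ Finset.range l.length, (-1 : ℚ) ^ i • simplex (l.eraseIdx i) := by
  induction l with
  | nil =>
    simp only [List.length_nil, Finset.range_zero, Finset.sum_empty]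
    exact Pool.Agent.Q124.CM.ct_one _
  | cons v l ih =>
    have h1 : ∀ (w : V) (l : List V), simplex (w :: l) =
        ExteriorAlgebra.ι ℚ (Finsupp.single w 1) * simplex l := fun w l => by simp [simplex]
    have h2 := Pool.Agent.Q124.CM.ct_vx_mul (Pool.Agent.Q124.CM.eps V) v (simplex l)
    rw [Pool.Agent.Q124.CM.eps_single, one_smul] at h2
    have h3 : boundary V (simplex (v :: l)) = simplex l -
        ExteriorAlgebra.ι ℚ (Finsupp.single v 1) * boundary V (simplex l) := by
      rw [h1]; exact h2
    rw [h3, ih, List.length_cons, Finset.sum_range_succ', Finset.mul_sum, sub_eq_add_neg,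
      ← Finset.sum_neg_distrib, add_comm]
    congr 1
    · refine Finset.sum_congr rfl (fun i _ => ?_)
      rw [List.eraseIdx_cons_succ, h1, pow_succ, mul_neg_one, neg_smul, mul_smul_comm]
    · simp

open Pool.Agent.Q124.CM

theorem tau_le {n : ℕ} (A : Inc n) :
    comatchingNumber (Set.range fun v => {x | A.I v x}) ≤ 2 := by
  unfold comatchingNumber
  refine iSup₂_le (fun M hM => ?_)
  have : M.card ≤ 2 := by
    by_contra hc
    push Not at hc
    obtain ⟨f, g, h, hf, hg, hh, hfg, hfh, hgh⟩ := Finset.two_lt_card_iff.1 hc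
    obtain ⟨v0, rfl⟩ := hM.1 hf
    obtain ⟨v1, rfl⟩ := hM.1 hg
    obtain ⟨v2, rfl⟩ := hM.1 hh
    obtain ⟨x0, a0, b0⟩ := hM.2 _ hf
    obtain ⟨x1, a1, b1⟩ := hM.2 _ hg
    obtain ⟨x2, a2, b2⟩ := hM.2 _ hh
    rcases A.noCom v0 v1 v2 x0 x1 x2 (b0 _ hg (Ne.symm hfg)) (b0 _ hh (Ne.symm hfh))
      (b1 _ hf hfg) (b1 _ hh (Ne.symm hgh)) (b2 _ hf hfh) (b2 _ hg hgh) with h | h | h
    · exact a0 h
    · exact a1 h
    · exact a2 h
  exact_mod_cast this

theorem not_vanish {n : ℕ} (A : Inc n) :
    ¬ ReducedHomologyVanishes (nerve (Set.range fun v => {x | A.I v x})) n := by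
  classical
  intro hvan
  obtain ⟨z, h1, h2, h3⟩ := A.good
  set j : A.V → Set A.X := fun v => {x | A.I v x} with hj
  have hinj : Function.Injective j := by
    intro v w hvw
    by_contra hne
    obtain ⟨x, hx1, hx2⟩ := A.sep v w hne
    apply hx2
    have : x ∈ j v := hx1
    rw [hvw] at this
    exact this
  haveI : Nonempty A.V := ⟨A.v0⟩
  set r : Set A.X → A.V := Function.invFun j with hr
  have hrj : r ∘ j = id := Function.invFun_comp hinj
  have hrj' : ∀ v, r (j v) = v := fun v => congrFun hrj v
  have hz : pf j z ∈ chains (nerve (Set.range j)) n := by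
    refine ch_le (pf j).toLinearMap _ (fun l x hl hx => ?_) h1
    rw [AlgHom.toLinearMap_apply, pf_mon]
    refine Submodule.subset_span ⟨l.map j, by simpa using hl, ⟨(l.map j).toFinset, ⟨?_, ?_, x, ?_⟩,
      fun v hv => List.mem_toFinset.2 hv⟩, rfl⟩
    · rw [List.toFinset_nonempty_iff]
      intro hnil
      have : l = [] := List.map_eq_nil_iff.1 hnil
      rw [this] at hl
      simp at hl
    · intro f hf
      obtain ⟨v, -, rfl⟩ := List.mem_map.1 (List.mem_toFinset.1 hf)
      exact ⟨v, rfl⟩
    · intro f hf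
      obtain ⟨v, hv, rfl⟩ := List.mem_map.1 (List.mem_toFinset.1 hf)
      exact hx v hv
  have hz0 : boundary (Set A.X) (pf j z) = 0 := by
    have : bd (pf j z) = pf j (bd z) := bd_pf j z
    rw [h2, map_zero] at this
    exact this
  obtain ⟨b, hb, hbz⟩ := hvan _ hz hz0
  have hb' : pf r b ∈ ch A.I (n + 2) := by
    have : chains (nerve (Set.range j)) (n + 1) ≤ (ch A.I (n + 2)).comap (pf r).toLinearMap := by
      apply Submodule.span_le.2
      rintro w ⟨l, hl, ⟨S, ⟨-, hS1, x, hS2⟩, hS3⟩, rfl⟩
      change pf r (mon l) ∈ ch A.I (n + 2)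
      rw [pf_mon]
      refine Submodule.subset_span ⟨l.map r, by simpa using hl, ⟨x, fun v hv => ?_⟩, rfl⟩
      obtain ⟨f, hf, rfl⟩ := List.mem_map.1 hv
      obtain ⟨v, rfl⟩ := hS1 (hS3 f hf)
      have h4 := hS2 _ (hS3 _ hf)
      change A.I (r (j v)) x
      rw [hrj']
      exact h4
    exact this hb
  refine h3 (pf r b) hb' ?_
  rw [bd_pf]
  have h5 : bd b = pf j z := hbz
  rw [h5, pf_pf, hrj, pf_id]

theorem induced_univ {V : Type} (K : Complex V) (k : ℕ)
    (h : ReducedHomologyVanishes (K.induced Set.univ) k) : ReducedHomologyVanishes K k := by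
  have e : ∀ m, chains (K.induced Set.univ) m = chains K m := by
    intro m
    unfold chains
    congr 1
    ext z
    constructor
    · rintro ⟨l, h1, ⟨S, h2, h3⟩, h4⟩
      exact ⟨l, h1, ⟨S, h2.1, h3⟩, h4⟩
    · rintro ⟨l, h1, ⟨S, h2, h3⟩, h4⟩
      exact ⟨l, h1, ⟨S, ⟨h2, fun _ _ => trivial⟩, h3⟩, h4⟩
  unfold ReducedHomologyVanishes at h ⊢
  rw [e, e] at h
  exact h

/-- **There is no absolute constant.** No `d > 0` has the property that the nerve of every family
with comatching number at most two is `d`-Leray; in fact for every `d` there is a family of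
subsets of a finite set with comatching number at most two whose nerve has nonzero reduced
rational homology in degree `d`. -/
theorem result :
    (¬ ∃ d : ℕ, 0 < d ∧ ∀ (X : Type) (𝓕 : Set (Set X)), comatchingNumber 𝓕 ≤ 2 →
      IsLeray (nerve 𝓕) d) ∧
    ∀ d : ℕ, ∃ (X : Type) (_ : Finite X) (𝓕 : Set (Set X)), comatchingNumber 𝓕 ≤ 2 ∧
      ¬ ReducedHomologyVanishes (nerve 𝓕) d := by
  have key : ∀ d : ℕ, ∃ (X : Type) (_ : Finite X) (𝓕 : Set (Set X)), comatchingNumber 𝓕 ≤ 2 ∧
      ¬ ReducedHomologyVanishes (nerve 𝓕) d :=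
    fun d => ⟨(inc d).X, (inc d).fX, _, tau_le (inc d), not_vanish (inc d)⟩
  refine ⟨?_, key⟩
  rintro ⟨d, -, hd⟩
  obtain ⟨X, -, 𝓕, h1, h2⟩ := key d
  exact h2 (induced_univ _ _ (hd X 𝓕 h1 Set.univ d le_rfl))

end Pool.Agent.Results.MP_587f0f_co.NoAbsoluteConstant
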